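import Mathlib

set_option autoImplicit false
set_option maxHeartbeats 400000

open Filter Topology Finset

namespace Pool.Agent.Results.MP_60e8bf_an.Irregular

/-- `#(A ∩ [0, N]) / (N + 1)`. -/
noncomputable def frac (A : Set ℕ) (N : ℕ) : ℝ := ((A ∩ Set.Iic N).ncard : ℝ) / (N + 1)

/-- lower density -/
noncomputable def ldens (A : Set ℕ) : ℝ := liminf (frac A) atTop

/-- upper density -/
noncomputable def udens (A : Set ℕ) : ℝ := limsup (frac A) atTop

theorem fin (A : Set ℕ) (N : ℕ) : (A ∩ Set.Iic N).Finite := (Set.finite_Iic N).inter_of_right A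

theorem nc (N : ℕ) : (Set.Iic N).ncard = N + 1 := by
  rw [← Finset.coe_Iic, Set.ncard_coe_finset, Nat.card_Iic]

theorem f0 (A : Set ℕ) (N : ℕ) : 0 ≤ frac A N := by unfold frac; positivity

theorem f1 (A : Set ℕ) (N : ℕ) : frac A N ≤ 1 := by
  unfold frac
  rw [div_le_one (by positivity)]
  exact_mod_cast (Set.ncard_le_ncard Set.inter_subset_right (Set.finite_Iic N)).trans_eq (nc N)

theorem bu (A : Set ℕ) : IsBoundedUnder (· ≤ ·) atTop (frac A) := isBoundedUnder_of ⟨1, f1 A⟩
theorem bl (A : Set ℕ) : IsBoundedUnder (· ≥ ·) atTop (frac A) := isBoundedUnder_of ⟨0, f0 A⟩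

theorem fmono {A B : Set ℕ} (h : A ⊆ B) (N : ℕ) : frac A N ≤ frac B N := by
  unfold frac
  gcongr
  exact fin B N

theorem disj (K : ℕ) (A : ℕ → Set ℕ) (h : ∀ i < K, ∀ j < K, i ≠ j → Disjoint (A i) (A j)) (N : ℕ) :
    ∑ i ∈ range K, frac (A i) N ≤ 1 := by
  unfold frac
  rw [← sum_div, div_le_one (by positivity)]
  have h1 := card_biUnion (s := range K) (t := fun i => (fin (A i) N).toFinset) fun i hi j hj hij =>
    Set.Finite.disjoint_toFinset.2 ((h i (mem_range.1 hi) j (mem_range.1 hj) hij).mono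
      Set.inter_subset_left Set.inter_subset_left)
  have h2 : #((range K).biUnion fun i => (fin (A i) N).toFinset) ≤ N + 1 :=
    (card_le_card (t := Finset.Iic N) fun n hn => by
      obtain ⟨i, -, hi⟩ := mem_biUnion.1 hn
      exact Finset.mem_Iic.2 ((Set.Finite.mem_toFinset _).1 hi).2).trans_eq (Nat.card_Iic N)
  rw [h1] at h2
  simp only [← Set.ncard_eq_toFinset_card] at h2
  exact_mod_cast h2

theorem core {X : Type*} [MetricSpace X] (y : ℕ → X) (hy : Function.Injective y) (T : X → X)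
    (hT : Continuous T) (hs : ∀ n, T (y n) = y (n + 1)) :
    ∃ U, IsOpen U ∧ U.Nonempty ∧ ldens {n | y n ∈ U} < udens {n | y n ∈ U} := by
  by_contra hc
  push Not at hc
  have cv : ∀ U, IsOpen U → U.Nonempty → Tendsto (frac {n | y n ∈ U}) atTop (𝓝 (udens {n | y n ∈ U})) :=
    fun U h1 h2 => tendsto_of_le_liminf_of_limsup_le (hc U h1 h2) le_rfl (bu _) (bl _)
  have sh : ∀ k n, T^[k] (y n) = y (n + k) := fun k n => by
    induction k with
    | zero => rfl
    | succ k ih => rw [Function.iterate_succ_apply', ih, hs, add_assoc]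
  have small : ∀ (n : ℕ) (c : ℝ), 0 < c → ∃ U, IsOpen U ∧ y n ∈ U ∧
      ∀ N, frac ({j | y j ∈ U} \ {n}) N ≤ c := by
    intro n c hc0
    obtain ⟨K, hK⟩ := exists_nat_gt (1 / c)
    have K0 : 0 < K := by exact_mod_cast (by positivity : (0 : ℝ) < 1 / c).trans hK
    obtain ⟨V, hV, hd⟩ := ((Set.finite_lt_nat K).image fun k => y (n + k)).t2_separation
    set W : Set X := ⋂ k ∈ range K, T^[k] ⁻¹' V (y (n + k)) with hW
    have W1 : IsOpen W := isOpen_biInter_finset fun k _ => (hV _).2.preimage (hT.iterate k)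
    have W2 : y n ∈ W := Set.mem_iInter₂.2 fun k _ => by rw [Set.mem_preimage, sh]; exact (hV _).1
    have d1 : udens {j | y j ∈ W} < c := by
      have t := cv W W1 ⟨_, W2⟩
      have t2 : ∀ k, Tendsto (frac ((· + k) '' {j | y j ∈ W})) atTop (𝓝 (udens {j | y j ∈ W})) := by
        intro k
        rw [← tendsto_add_atTop_iff_nat k]
        have e : ∀ N, frac ((· + k) '' {j | y j ∈ W}) (N + k) =
            frac {j | y j ∈ W} N * ((N + 1) / (N + 1 + k)) := fun N => by
          unfold frac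
          have : (· + k) '' {j | y j ∈ W} ∩ Set.Iic (N + k) = (· + k) '' ({j | y j ∈ W} ∩ Set.Iic N) := by
            ext a; constructor
            · rintro ⟨⟨b, hb, rfl⟩, h⟩; exact ⟨b, ⟨hb, by simpa using h⟩, rfl⟩
            · rintro ⟨b, ⟨hb, h⟩, rfl⟩; exact ⟨⟨b, hb, rfl⟩, by simpa using h⟩
          rw [this, Set.ncard_image_of_injective _ (add_left_injective k)]
          push_cast; field_simp; ring
        simp only [e]
        have := (tendsto_natCast_div_add_atTop (k : ℝ)).comp (tendsto_add_atTop_nat 1)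
        simpa [Function.comp_def] using t.mul this
      have t3 := le_of_tendsto' (tendsto_finsetSum (range K) fun k _ => t2 k)
        (disj K _ fun i hi j hj hij => by
          refine Set.disjoint_left.2 ?_
          rintro _ ⟨a, ha, rfl⟩ ⟨b, hb, hab⟩
          have a1 := Set.mem_iInter₂.1 ha i (mem_range.2 hi)
          have a2 := Set.mem_iInter₂.1 hb j (mem_range.2 hj)
          rw [Set.mem_preimage, sh] at a1 a2
          dsimp only at hab
          rw [hab] at a2
          exact Set.disjoint_left.1 (hd ⟨i, hi, rfl⟩ ⟨j, hj, rfl⟩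
            fun h => hij (by simpa using hy h)) a1 a2)
      rw [sum_const, card_range, nsmul_eq_mul] at t3
      rw [div_lt_iff₀ hc0] at hK
      by_contra h
      have : (K : ℝ) * c ≤ K * udens {j | y j ∈ W} := by gcongr; exact not_lt.1 h
      linarith
    obtain ⟨M, hM⟩ := eventually_atTop.1 ((cv W W1 ⟨_, W2⟩).eventually (gt_mem_nhds d1))
    refine ⟨W \ y '' (Set.Iic M \ {n}), W1.sdiff (((Set.finite_Iic M).sdiff).image y).isClosed,
      ⟨W2, fun ⟨j, h1, h2⟩ => h1.2 (hy h2)⟩, fun N => ?_⟩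
    by_cases hN : M ≤ N
    · exact (fmono (fun j hj => hj.1.1) N).trans (hM N hN).le
    · unfold frac
      rw [Set.eq_empty_of_forall_notMem (s := _ ∩ Set.Iic N) fun j hj =>
        hj.1.1.2 ⟨j, ⟨show j ≤ M from le_trans hj.2 (by omega), hj.1.2⟩, rfl⟩]
      simpa using hc0.le
  choose V V1 V2 V3 using fun n => small n ((1 / 2) ^ n / 16) (by positivity)
  set E : Set ℕ := {n | Even (Nat.log 8 n)}
  set U := ⋃ n ∈ E, V n
  have t := cv U (isOpen_biUnion fun n _ => V1 n) ⟨_, Set.mem_biUnion (show 0 ∈ E by simp [E]) (V2 0)⟩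
  have p0 : ∀ i, 1 ≤ 8 ^ i := fun i => Nat.one_le_pow _ _ (by norm_num)
  have ts : ∀ r, Tendsto (fun i : ℕ => 8 ^ (2 * i + r) - 1) atTop atTop := fun r =>
    (tendsto_sub_atTop_nat 1).comp ((tendsto_pow_atTop_atTop_of_one_lt (by norm_num)).comp
      (tendsto_atTop_mono (fun i => by simp only [id]; omega) tendsto_id))
  have blk : ∀ (i : ℕ) (B : Set ℕ), (∀ n, Nat.log 8 n = i → 8 ^ i ≤ n → n ∈ B) →
      7 / 8 ≤ frac B (8 ^ (i + 1) - 1) := fun i B hB => by
    have := Set.ncard_le_ncard (show ↑(Finset.Ico (8 ^ i) (8 ^ (i + 1))) ⊆ B ∩ Set.Iic (8 ^ (i + 1) - 1)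
      from fun n hn => by
        have := Finset.mem_Ico.1 (mem_coe.1 hn)
        exact ⟨hB n (Nat.log_eq_of_pow_le_of_lt_pow this.1 this.2) this.1,
          Nat.le_sub_one_of_lt this.2⟩) (fin _ _)
    rw [Set.ncard_coe_finset, Nat.card_Ico, show 8 ^ (i + 1) - 8 ^ i = 7 * 8 ^ i by omega] at this
    unfold frac
    rw [Nat.cast_pred (p0 _), sub_add_cancel, le_div_iff₀ (by positivity)]
    have h : ((7 * 8 ^ i : ℕ) : ℝ) ≤ _ := Nat.cast_le.2 this
    push_cast at h ⊢
    rw [pow_succ]; linarith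
  have a1 := ge_of_tendsto' (t.comp (ts 1)) fun i => blk (2 * i) _ fun n hn _ =>
    Set.mem_biUnion (show n ∈ E by simp [E, hn]) (V2 n)
  have a2 := le_of_tendsto' (b := 3 / 8) (t.comp (ts 2)) fun i => by
    set N := 8 ^ (2 * i + 2) - 1
    have b1 := blk (2 * i + 1) Eᶜ fun n hn _ => by simp [E, hn]
    have b2 := disj 2 (fun k => if k = 0 then E else Eᶜ) (fun a ha b hb hab => by
      interval_cases a <;> interval_cases b <;> simp [disjoint_compl_right, disjoint_compl_left] at *) N
    simp only [sum_range_succ, range_zero, sum_empty, zero_add, if_true, one_ne_zero, if_false] at b2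
    choose! g g1 g2 using fun j (hj : j ∈ {j | y j ∈ U}) => Set.mem_iUnion₂.1 hj
    set F := (range (N + 1)).image g
    have b3 : {j | y j ∈ U} ∩ Set.Iic N ⊆ (E ∩ Set.Iic N) ∪
        ⋃ n ∈ F, ({j | y j ∈ V n} \ {n}) ∩ Set.Iic N := fun j hj => by
      by_cases h : j = g j
      · exact Or.inl ⟨h ▸ g1 j hj.1, hj.2⟩
      · exact Or.inr (Set.mem_biUnion (mem_image_of_mem g (mem_range.2 (Nat.lt_succ_of_le hj.2)))
          ⟨⟨g2 j hj.1, h⟩, hj.2⟩)
    have b4 := (Set.ncard_le_ncard b3 ((fin _ _).union (F.finite_toSet.biUnion fun _ _ => fin _ _))).trans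
      ((Set.ncard_union_le _ _).trans (Nat.add_le_add_left (Finset.set_ncard_biUnion_le _ _) _))
    have b5 : frac {j | y j ∈ U} N ≤ frac E N + ∑ n ∈ F, frac ({j | y j ∈ V n} \ {n}) N := by
      unfold frac
      rw [← sum_div, ← add_div]
      gcongr
      exact_mod_cast b4
    have b6 := (sum_le_sum fun n (_ : n ∈ F) => V3 n N).trans
      (sum_le_hasSum F (fun _ _ => by positivity) (hasSum_geometric_two.div_const 16))
    change frac _ N ≤ _
    linarith
  linarith

/-- Every frequently hypercyclic vector of a bounded operator on a nonzero Banach space has an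
irregularly visiting orbit. -/
theorem result (K X : Type*) [RCLike K] [NormedAddCommGroup X] [NormedSpace K X] [Nontrivial X]
    (T : X →L[K] X) (x : X)
    (hx : ∀ U : Set X, IsOpen U → U.Nonempty → 0 < ldens {n | (T ^ n) x ∈ U}) :
    ∃ U : Set X, IsOpen U ∧ U.Nonempty ∧ ldens {n | (T ^ n) x ∈ U} < udens {n | (T ^ n) x ∈ U} := by
  refine core (fun n => (T ^ n) x) ?_ T T.continuous fun n => by rw [pow_succ']; rfl
  by_contra h
  have hf : (Set.range fun n => (T ^ n) x).Finite := by
    have e : (fun n => (T ^ n) x) = fun n => T^[n] x := funext fun n => by simp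
    rw [e] at h ⊢
    obtain ⟨a, b, hab, h1⟩ : ∃ a b, a < b ∧ T^[a] x = T^[b] x := by
      obtain ⟨a, b, h1, h2⟩ := Function.not_injective_iff.1 h
      rcases lt_or_gt_of_ne h2 with h3 | h3
      exacts [⟨a, b, h3, h1⟩, ⟨b, a, h3, h1.symm⟩]
    refine ((Set.finite_lt_nat b).image fun n => T^[n] x).subset ?_
    rintro _ ⟨n, rfl⟩
    induction n using Nat.strong_induction_on with
    | _ n ih =>
      by_cases hn : n < b
      · exact ⟨n, hn, rfl⟩
      · obtain ⟨t, rfl⟩ := Nat.exists_eq_add_of_le' (not_lt.1 hn)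
        have := ih (t + a) (by omega)
        simp only [Function.iterate_add_apply, ← h1] at this ⊢
        exact this
  have := Module.Free.infinite K X
  have h2 := hx _ hf.isClosed.isOpen_compl hf.infinite_compl.nonempty
  have h3 : {n | (T ^ n) x ∈ (Set.range fun n => (T ^ n) x)ᶜ} = ∅ := by ext n; simp
  rw [h3, ldens, show frac ∅ = fun _ => 0 from funext fun N => by simp [frac], liminf_const] at h2
  exact lt_irrefl _ h2

end Pool.Agent.Results.MP_60e8bf_an.Irregular
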